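import Pool.Agent.Lib.BE.SpecB

set_option autoImplicit false

namespace Pool.Agent.Lib.BE

open Finset

private lemma BiC_res (𝓑 S : Finset ℕ) (W : ℕ → ℝ) (h : S ⊆ 𝓑) :
    ∑ b ∈ 𝓑, W b * (if b ∈ S then (1 : ℝ) else 0) = ∑ b ∈ S, W b := by
  classical
  rw [← Finset.sum_subset h (f := fun b => W b * (if b ∈ S then (1 : ℝ) else 0))]
  · exact Finset.sum_congr rfl fun b hb => by simp [hb]
  · intro b _ hb
    simp [hb]

private lemma BiC_ind {n : ℕ} (S : Fin n → Finset ℕ) (b : ℕ) (τ : ℝ) :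
    2 * τ * (∑ t, (if b ∈ S t then (1 : ℝ) else 0)) - τ ^ 2 * (∑ t, (if b ∈ S t then (1 : ℝ) else 0)) ^ 2 ≤
      (if ∃ t, b ∈ S t then (1 : ℝ) else 0) := by
  classical
  by_cases h : ∃ t, b ∈ S t
  · rw [if_pos h]
    nlinarith [sq_nonneg (1 - τ * ∑ t, (if b ∈ S t then (1 : ℝ) else 0))]
  · rw [if_neg h]
    have h0 : ∑ t, (if b ∈ S t then (1 : ℝ) else 0) = 0 := by
      refine Finset.sum_eq_zero fun t _ => ?_
      rw [if_neg fun hb => h ⟨t, hb⟩]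
    rw [h0]
    simp

private lemma BiC_one {n : ℕ} (𝓑 : Finset ℕ) (W : ℕ → ℝ) (S : Fin n → Finset ℕ) (h : ∀ t, S t ⊆ 𝓑) :
    ∑ b ∈ 𝓑, W b * (∑ t, (if b ∈ S t then (1 : ℝ) else 0)) = ∑ t, ∑ b ∈ S t, W b := by
  classical
  simp_rw [Finset.mul_sum]
  rw [Finset.sum_comm]
  exact Finset.sum_congr rfl fun t _ => BiC_res 𝓑 (S t) W (h t)

private lemma BiC_two {n : ℕ} (𝓑 : Finset ℕ) (W : ℕ → ℝ) (S : Fin n → Finset ℕ) (h : ∀ t, S t ⊆ 𝓑) :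
    ∑ b ∈ 𝓑, W b * (∑ t, (if b ∈ S t then (1 : ℝ) else 0)) ^ 2 = ∑ t, ∑ t', ∑ b ∈ S t ∩ S t', W b := by
  classical
  have e : ∀ b, W b * (∑ t, (if b ∈ S t then (1 : ℝ) else 0)) ^ 2 =
      ∑ t, ∑ t', W b * (if b ∈ S t ∩ S t' then (1 : ℝ) else 0) := by
    intro b
    rw [sq, Finset.sum_mul_sum, Finset.mul_sum]
    refine Finset.sum_congr rfl fun t _ => ?_
    rw [Finset.mul_sum]
    refine Finset.sum_congr rfl fun t' _ => ?_
    by_cases h1 : b ∈ S t <;> by_cases h2 : b ∈ S t' <;> simp [h1, h2]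
  simp_rw [e]
  rw [Finset.sum_comm]
  refine Finset.sum_congr rfl fun t _ => ?_
  rw [Finset.sum_comm]
  refine Finset.sum_congr rfl fun t' _ => ?_
  exact BiC_res 𝓑 (S t ∩ S t') W (Finset.inter_subset_left.trans (h t))

/-- one bin -/
private lemma BiC_bin {n : ℕ} (𝓑 : Finset ℕ) (W : ℕ → ℝ) (S : Fin n → Finset ℕ) (h : ∀ t, S t ⊆ 𝓑)
    (hW : ∀ b, 0 ≤ W b) (τ x y z : ℝ) (hτ : 0 ≤ τ) (hz : 0 ≤ z)
    (hx : ∀ t, x ≤ ∑ b ∈ S t, W b) (hy : ∀ t, ∑ b ∈ S t, W b ≤ y)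
    (hz2 : ∀ t t', t ≠ t' → ∑ b ∈ S t ∩ S t', W b ≤ z) :
    2 * τ * (n * x) - τ ^ 2 * (n * y + (n : ℝ) ^ 2 * z) ≤
      ∑ b ∈ 𝓑, W b * (if ∃ t, b ∈ S t then (1 : ℝ) else 0) := by
  classical
  have a1 : ∑ b ∈ 𝓑, W b * (2 * τ * (∑ t, (if b ∈ S t then (1 : ℝ) else 0)) -
      τ ^ 2 * (∑ t, (if b ∈ S t then (1 : ℝ) else 0)) ^ 2) ≤
      ∑ b ∈ 𝓑, W b * (if ∃ t, b ∈ S t then (1 : ℝ) else 0) :=
    Finset.sum_le_sum fun b _ => mul_le_mul_of_nonneg_left (BiC_ind S b τ) (hW b)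
  have a2 : ∑ b ∈ 𝓑, W b * (2 * τ * (∑ t, (if b ∈ S t then (1 : ℝ) else 0)) -
      τ ^ 2 * (∑ t, (if b ∈ S t then (1 : ℝ) else 0)) ^ 2) =
      2 * τ * (∑ t, ∑ b ∈ S t, W b) - τ ^ 2 * (∑ t, ∑ t', ∑ b ∈ S t ∩ S t', W b) := by
    rw [← BiC_one 𝓑 W S h, ← BiC_two 𝓑 W S h, Finset.mul_sum, Finset.mul_sum, ← Finset.sum_sub_distrib]
    exact Finset.sum_congr rfl fun b _ => by ring
  have a3 : (n : ℝ) * x ≤ ∑ t, ∑ b ∈ S t, W b := by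
    calc (n : ℝ) * x = ∑ _t : Fin n, x := by simp
      _ ≤ _ := Finset.sum_le_sum fun t _ => hx t
  have a4 : ∑ t, ∑ t', ∑ b ∈ S t ∩ S t', W b ≤ n * y + (n : ℝ) ^ 2 * z := by
    have a5 : ∀ t, ∑ t', ∑ b ∈ S t ∩ S t', W b ≤ y + n * z := by
      intro t
      rw [← Finset.add_sum_erase univ (fun t' => ∑ b ∈ S t ∩ S t', W b) (Finset.mem_univ t)]
      have b1 : ∑ b ∈ S t ∩ S t, W b ≤ y := by
        rw [Finset.inter_self]
        exact hy t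
      have b2 : ∑ t' ∈ univ.erase t, ∑ b ∈ S t ∩ S t', W b ≤ ∑ _t' ∈ univ.erase t, z :=
        Finset.sum_le_sum fun t' ht' => hz2 t t' (Finset.ne_of_mem_erase ht').symm
      have b3 : ∑ _t' ∈ univ.erase t, z ≤ n * z := by
        rw [Finset.sum_const, nsmul_eq_mul]
        refine mul_le_mul_of_nonneg_right ?_ hz
        have : (univ.erase t).card ≤ n := by
          calc (univ.erase t).card ≤ (univ : Finset (Fin n)).card := Finset.card_le_card (Finset.erase_subset _ _)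
            _ = n := by simp
        exact_mod_cast this
      linarith
    calc ∑ t, ∑ t', ∑ b ∈ S t ∩ S t', W b ≤ ∑ _t : Fin n, (y + n * z) :=
          Finset.sum_le_sum fun t _ => a5 t
      _ = n * y + (n : ℝ) ^ 2 * z := by
          rw [Finset.sum_const, Finset.card_univ, Fintype.card_fin, nsmul_eq_mul]
          ring
  calc 2 * τ * (n * x) - τ ^ 2 * (n * y + (n : ℝ) ^ 2 * z) ≤
      2 * τ * (∑ t, ∑ b ∈ S t, W b) - τ ^ 2 * (∑ t, ∑ t', ∑ b ∈ S t ∩ S t', W b) := by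
        have c1 := mul_le_mul_of_nonneg_left a3 (by positivity : (0 : ℝ) ≤ 2 * τ)
        have c2 := mul_le_mul_of_nonneg_left a4 (by positivity : (0 : ℝ) ≤ τ ^ 2)
        linarith
    _ ≤ _ := by rw [← a2]; exact a1

/-- the numbers -/
private lemma BiC_num (A T e : ℝ) (hT : 0 < T) (h1 : 1 ≤ A) (h3 : A ≤ 3) (he2 : e ≤ T / 10 ^ 4) :
    T * (3 / (2 * 10 ^ 6)) ≤ 2 * (1 / 8100 : ℝ) * (A * T / 100 - e) -
      (1 / 8100 : ℝ) ^ 2 * ((3 * A * T + e) + (8 * A ^ 2 * T + e)) := by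
  have h4 : A ^ 2 ≤ 4 * A - 3 := by nlinarith
  have h5 : A ^ 2 * T ≤ (4 * A - 3) * T := mul_le_mul_of_nonneg_right h4 hT.le
  have h6 : T ≤ A * T := by nlinarith
  nlinarith

theorem tBiC : BiCStmt := by
  classical
  intro m n 𝓑 W B Z T α ε hm hn hZ hT hα hW hB h1 h2 hε hM h3 h4
  have hm' : (1 : ℝ) ≤ m := by exact_mod_cast hm
  have hn' : (1 : ℝ) ≤ n := by exact_mod_cast hn
  have hA1 : 1 ≤ n * α := by
    by_contra hc
    push Not at hc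
    nlinarith
  have hA3 : n * α ≤ 3 := by
    by_contra hc
    push Not at hc
    nlinarith
  have hε0 : 0 ≤ ε := by rw [hε]; positivity
  have hne : (n : ℝ) ^ 2 * ε ≤ T / 10 ^ 4 := by
    rw [hε, ← mul_div_assoc, div_le_div_iff₀ (by positivity) (by positivity)]
    have : (n : ℝ) ^ 2 * T * 1 ≤ (n : ℝ) ^ 2 * T * m := mul_le_mul_of_nonneg_left hm' (by positivity)
    nlinarith
  have hne1 : (n : ℝ) * ε ≤ (n : ℝ) ^ 2 * ε := by
    refine mul_le_mul_of_nonneg_right ?_ hε0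
    nlinarith
  by_contra hcon
  push Not at hcon
  have hbin : ∀ i, Z * (T * (3 / (2 * 10 ^ 6))) ≤ ∑ b ∈ 𝓑, W b * (if ∃ t, b ∈ B i t then (1 : ℝ) else 0) := by
    intro i
    have k1 := BiC_bin 𝓑 W (B i) (hB i) hW (1 / 8100) (Z * (α * T / 100 - ε)) (Z * (3 * α * T + ε))
      (Z * (8 * α ^ 2 * T + ε)) (by norm_num) (by positivity) (fun t => (h3 i t).1) (fun t => (h3 i t).2) (h4 i)
    refine le_trans ?_ k1
    have k2 := BiC_num (n * α) T ((n : ℝ) ^ 2 * ε) hT hA1 hA3 hne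
    have k3 : Z * (T * (3 / (2 * 10 ^ 6))) ≤ Z * (2 * (1 / 8100 : ℝ) * (n * α * T / 100 - (n : ℝ) ^ 2 * ε) -
      (1 / 8100 : ℝ) ^ 2 * ((3 * (n * α) * T + (n : ℝ) ^ 2 * ε) + (8 * (n * α) ^ 2 * T + (n : ℝ) ^ 2 * ε))) :=
      mul_le_mul_of_nonneg_left k2 hZ.le
    refine k3.trans ?_
    have k4 : 0 ≤ Z * ((n : ℝ) ^ 2 * ε - n * ε) := mul_nonneg hZ.le (by linarith)
    nlinarith
  have hs1 : ∑ b ∈ 𝓑, W b * (∑ i : Fin m, (if ∃ t, b ∈ B i t then (1 : ℝ) else 0)) ≤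
      (m : ℝ) / 10 ^ 6 * ∑ b ∈ 𝓑, W b := by
    rw [Finset.mul_sum]
    refine Finset.sum_le_sum fun b hb => ?_
    rw [mul_comm]
    refine mul_le_mul_of_nonneg_right ?_ (hW b)
    rw [Finset.sum_boole]
    exact (hcon b hb).le
  have hs2 : (m : ℝ) * (Z * (T * (3 / (2 * 10 ^ 6)))) ≤
      ∑ b ∈ 𝓑, W b * (∑ i : Fin m, (if ∃ t, b ∈ B i t then (1 : ℝ) else 0)) := by
    simp_rw [Finset.mul_sum]
    rw [Finset.sum_comm]
    calc (m : ℝ) * (Z * (T * (3 / (2 * 10 ^ 6)))) = ∑ _i : Fin m, Z * (T * (3 / (2 * 10 ^ 6))) := by simp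
      _ ≤ _ := Finset.sum_le_sum fun i _ => hbin i
  have hεT : ε ≤ T / 10 ^ 4 := by
    have : (1 : ℝ) * ε ≤ (n : ℝ) ^ 2 * ε := mul_le_mul_of_nonneg_right (by nlinarith) hε0
    linarith
  have hs3 : (m : ℝ) / 10 ^ 6 * ∑ b ∈ 𝓑, W b ≤ (m : ℝ) / 10 ^ 6 * (Z * (T + T / 10 ^ 4)) := by
    refine mul_le_mul_of_nonneg_left (hM.trans ?_) (by positivity)
    exact mul_le_mul_of_nonneg_left (by linarith) hZ.le
  have hpos : 0 < (m : ℝ) * (Z * T) := by positivity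
  nlinarith

end Pool.Agent.Lib.BE
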