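import Pool.Agent.Lib.BE.SpecB

/-!
Project BE, module MbC (helper24; port of CG/Mf/MfB.lean): the mass on the primes of one form `a b + c`.
-/

set_option autoImplicit false

namespace Pool.Agent.Lib.BE

open Finset
open Pool.Agent.Lib.MP_9f2731_nt.GP
open Pool.Agent.Lib.MP_9f2731_nt.GP.Sv
open Pool.Agent.Lib.MP_9f2731_nt.QL
open Pool.Agent.Lib.MP_9f2731_nt.QL.Sw
open Pool.Agent.Lib.MP_9f2731_nt.CG
open Pool.Agent.Lib.MP_9f2731_nt.CG.Ma
open Pool.Agent.Lib.MP_9f2731_nt.CG.Mf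

/-- the square of the weight -/
private theorem MbC_sq (W X : ℕ) {K r : ℕ} (P : Fin r → Pf) (𝒜 : Finset (Fin K → Fin r)) (a c : Fin K → ℕ)
    (b : ℕ) :
    WWC W X P 𝒜 a c b ^ 2 = ∑ v ∈ 𝒜, ∑ u ∈ 𝒜, ∏ j, (AF W (RR X) (pfn (P (v j)) (RR X)) (a j * b + c j) *
      AF W (RR X) (pfn (P (u j)) (RR X)) (a j * b + c j)) := by
  unfold WWC
  rw [sq, sum_mul_sum]
  exact sum_congr rfl fun v _ => sum_congr rfl fun u _ => prod_mul_distrib.symm

/-- perturbation of a product -/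
private theorem MbC_pert {ι : Type} [DecidableEq ι] (s : Finset ι) (x y : ι → ℝ) (A ε : ℝ) (hA : 0 ≤ A)
    (hx : ∀ j, |x j| ≤ A) (hy : ∀ j, |y j| ≤ A) (hxy : ∀ j, |x j - y j| ≤ A * ε) :
    |∏ j ∈ s, x j - ∏ j ∈ s, y j| ≤ s.card * A ^ s.card * ε := by
  induction s using Finset.induction_on with
  | empty => simp
  | insert j s hj ih =>
    rw [prod_insert hj, prod_insert hj, card_insert_of_notMem hj]
    have e1 : x j * ∏ j ∈ s, x j - y j * ∏ j ∈ s, y j =
        x j * (∏ j ∈ s, x j - ∏ j ∈ s, y j) + (x j - y j) * ∏ j ∈ s, y j := by ring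
    rw [e1]
    refine (abs_add_le _ _).trans ?_
    rw [abs_mul, abs_mul]
    have h1 : |∏ j ∈ s, y j| ≤ A ^ s.card := by
      rw [Finset.abs_prod]
      exact (prod_le_prod (fun _ _ => abs_nonneg _) fun j _ => hy j).trans (by rw [prod_const])
    push_cast
    calc |x j| * |∏ j ∈ s, x j - ∏ j ∈ s, y j| + |x j - y j| * |∏ j ∈ s, y j| ≤
          A * (s.card * A ^ s.card * ε) + A * ε * A ^ s.card :=
        add_le_add (mul_le_mul (hx j) ih (abs_nonneg _) hA)
          (mul_le_mul (hxy j) h1 (abs_nonneg _) ((abs_nonneg _).trans (hxy j)))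
      _ = (s.card + 1) * A ^ (s.card + 1) * ε := by ring

/-- the parameters are large -/
private theorem MbC_large (A1 C A2 η : ℝ) (k N : ℕ) (hη : 0 < η) : ∃ X0 : ℝ, ∀ X : ℕ, X0 ≤ X →
    1 ≤ Real.log (Real.log X) ∧ 1 ≤ Real.log (RR X) ∧ 2 ≤ RR X ∧ 1 ≤ Real.sqrt (Real.log X) ∧
    A1 * (k * (1 / Real.sqrt (Real.log X)) + (Real.exp (C / Real.log (Real.log X) ^ 2) - 1)) ≤ η ∧
    A2 * (Real.log (RR X) ^ N * Real.exp (-(Real.log X) ^ ((1 : ℝ) / 300))) ≤ 1 := by
  have t0 : Filter.Tendsto (fun X : ℕ => Real.log (X : ℝ)) Filter.atTop Filter.atTop :=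
    Real.tendsto_log_atTop.comp tendsto_natCast_atTop_atTop
  have t1 : Filter.Tendsto (fun X : ℕ => Real.log (Real.log (X : ℝ))) Filter.atTop Filter.atTop :=
    Real.tendsto_log_atTop.comp t0
  have t2 : Filter.Tendsto (fun X : ℕ => RR X) Filter.atTop Filter.atTop :=
    (tendsto_rpow_atTop (by norm_num : (0 : ℝ) < 1 / 5)).comp tendsto_natCast_atTop_atTop
  have t3 : Filter.Tendsto (fun X : ℕ => Real.log (RR X)) Filter.atTop Filter.atTop :=
    Real.tendsto_log_atTop.comp t2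
  have t4 : Filter.Tendsto (fun X : ℕ => 1 / Real.sqrt (Real.log (X : ℝ))) Filter.atTop (nhds 0) :=
    tendsto_const_nhds.div_atTop (Real.tendsto_sqrt_atTop.comp t0)
  have t5 : Filter.Tendsto (fun X : ℕ => C / Real.log (Real.log (X : ℝ)) ^ 2) Filter.atTop (nhds 0) :=
    tendsto_const_nhds.div_atTop ((Filter.tendsto_pow_atTop two_ne_zero).comp t1)
  have t6 : Filter.Tendsto (fun X : ℕ => Real.exp (C / Real.log (Real.log (X : ℝ)) ^ 2) - 1) Filter.atTop
      (nhds 0) := by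
    have h := ((Real.continuous_exp.tendsto 0).comp t5).sub_const 1
    simpa using h
  have t7 : Filter.Tendsto (fun X : ℕ => A1 * (k * (1 / Real.sqrt (Real.log (X : ℝ))) +
      (Real.exp (C / Real.log (Real.log (X : ℝ)) ^ 2) - 1))) Filter.atTop (nhds 0) := by
    have h := ((t4.const_mul (k : ℝ)).add t6).const_mul A1
    simpa using h
  have t8 : Filter.Tendsto (fun X : ℕ => (Real.log (X : ℝ)) ^ ((1 : ℝ) / 300)) Filter.atTop Filter.atTop :=
    (tendsto_rpow_atTop (by norm_num : (0 : ℝ) < 1 / 300)).comp t0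
  have t9 : Filter.Tendsto (fun X : ℕ => |A2| * (((Real.log (X : ℝ)) ^ ((1 : ℝ) / 300)) ^ (300 * N) *
      Real.exp (-(Real.log (X : ℝ)) ^ ((1 : ℝ) / 300)))) Filter.atTop (nhds 0) := by
    have h := ((Real.tendsto_pow_mul_exp_neg_atTop_nhds_zero (300 * N)).comp t8).const_mul |A2|
    simpa using h
  obtain ⟨N0, hN0⟩ := Filter.eventually_atTop.1 ((((((t1.eventually_ge_atTop 1).and
    (t3.eventually_ge_atTop 1)).and (t2.eventually_ge_atTop 2)).and (t0.eventually_ge_atTop 1)).and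
    (t7.eventually_lt_const hη)).and (t9.eventually_lt_const one_pos))
  refine ⟨N0, fun X hX => ?_⟩
  obtain ⟨⟨⟨⟨⟨h1, h2⟩, h3⟩, h4⟩, h5⟩, h6⟩ := hN0 X (Nat.cast_le.1 hX)
  refine ⟨h1, h2, h3, Real.one_le_sqrt.2 h4, h5.le, ?_⟩
  have hX0 : (0 : ℝ) < X := by
    by_contra h
    have h7 : (X : ℝ) = 0 := le_antisymm (not_lt.1 h) (Nat.cast_nonneg X)
    rw [h7, Real.log_zero] at h4
    linarith
  have h7 : Real.log (RR X) ≤ Real.log X := by
    unfold RR
    rw [Real.log_rpow hX0]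
    linarith
  have h8 : ((Real.log (X : ℝ)) ^ ((1 : ℝ) / 300)) ^ (300 * N) = Real.log X ^ N := by
    rw [pow_mul, ← Real.rpow_natCast _ 300, ← Real.rpow_mul (by linarith)]
    norm_num
  rw [h8] at h6
  calc A2 * (Real.log (RR X) ^ N * Real.exp (-(Real.log X) ^ ((1 : ℝ) / 300))) ≤
        |A2| * (Real.log X ^ N * Real.exp (-(Real.log X) ^ ((1 : ℝ) / 300))) :=
        mul_le_mul (le_abs_self _) (mul_le_mul_of_nonneg_right (pow_le_pow_left₀ (by linarith) h7 N)
          (Real.exp_pos _).le) (mul_nonneg (pow_nonneg (by linarith) N) (Real.exp_pos _).le) (abs_nonneg _)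
    _ ≤ 1 := h6.le

/-- the product of the cutoffs -/
private theorem MbC_prody {K r : ℕ} (bd : Fin r → ℝ) (l : Fin K) (v u : Fin K → Fin r) (R : ℝ) (hR : 1 ≤ R)
    (hb : ∀ i, 0 ≤ bd i) (hv : ∑ j, bd (v j) ≤ 1) (hu : ∑ j, bd (u j) ≤ 1) :
    ∏ i : {j : Fin K // j ≠ l} × Bool, R ^ bd (cond i.2 (v i.1) (u i.1)) ≤ R * R := by
  have hR0 : 0 < R := by linarith
  have h1 : ∀ s : Fin K → Fin r, ∑ j, bd (s j) ≤ 1 → ∏ j : {j : Fin K // j ≠ l}, R ^ bd (s j) ≤ R := by
    intro s hs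
    rw [← Real.rpow_sum_of_pos hR0]
    calc R ^ (∑ j : {j : Fin K // j ≠ l}, bd (s j)) ≤ R ^ (1 : ℝ) := by
          refine Real.rpow_le_rpow_of_exponent_le hR (le_trans ?_ hs)
          rw [← Finset.sum_subtype (univ.erase l) (fun x => by simp) fun j => bd (s j)]
          exact sum_le_sum_of_subset_of_nonneg (subset_univ _) fun _ _ _ => hb _
      _ = R := Real.rpow_one R
  rw [Fintype.prod_prod_type]
  have e1 : ∀ j : {j : Fin K // j ≠ l}, ∏ s : Bool, R ^ bd (cond (j, s).2 (v (j, s).1) (u (j, s).1)) =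
      R ^ bd (v j) * R ^ bd (u j) := fun j => by rw [Fintype.prod_bool, cond_true, cond_false]
  rw [prod_congr rfl fun j _ => e1 j, prod_mul_distrib]
  exact mul_le_mul (h1 v hv) (h1 u hu) (prod_nonneg fun _ _ => by positivity) hR0.le

/-- the integral of a profile -/
private theorem MbC_im (P : Pf) (h : Pok P) : |im P| ≤ P.M := by
  unfold im Pf.M
  refine (abs_sum_le_sum_abs _ _).trans (sum_le_sum fun s _ => ?_)
  rw [abs_mul, abs_of_nonneg (sq_nonneg (P.be s))]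
  exact mul_le_of_le_one_right (abs_nonneg _) (pow_le_one₀ (h s).1 (h s).2)

theorem tMbC (h1 : S2CStmt) (h2 : ErCStmt) (h3 : PfBStmt) (h4 : AfPStmt) (h5 : MfTStmt) : MbCStmt := by
  intro K r P bd 𝒜 hV η hη
  obtain ⟨k, rfl⟩ : ∃ k, K = k + 1 := ⟨K - 1, by have := hV.hK; omega⟩
  have hPok : ∀ i, Pok (P i) := fun i s => ⟨(hV.be i s).1, ((hV.be i s).2).trans (hV.one i)⟩
  have hbd : ∀ i, 0 ≤ bd i := fun i => ((hV.be i 0).1).trans (hV.be i 0).2
  obtain ⟨C, XT, hC, hT⟩ := h5 r P hPok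
  obtain ⟨C', hC', hS⟩ := h1 k
  obtain ⟨XE, hE⟩ := h2 (2 * k)
  have hMn : ∀ i, 0 ≤ (P i).M := fun i => sum_nonneg fun _ _ => abs_nonneg _
  obtain ⟨M0, hM0, hM⟩ : ∃ M0 : ℝ, 0 ≤ M0 ∧ ∀ i, (P i).M ≤ M0 :=
    ⟨∑ i, (P i).M, sum_nonneg fun i _ => hMn i,
      fun i => single_le_sum (f := fun i => (P i).M) (fun i _ => hMn i) (mem_univ i)⟩
  obtain ⟨XL, hL⟩ := MbC_large ((𝒜.card : ℝ) ^ 2 * M0 ^ 2 * (2 * C) ^ k) C'
    ((𝒜.card : ℝ) ^ 2 * M0 ^ 2 * M0 ^ (2 * k)) η k (4 + 4 * k) hη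
  refine ⟨max XT (max XE XL), ?_⟩
  intro X w V p0 a c l hX hSt hBv
  obtain ⟨hll, hL1, hR2, hsq, hLη, hLN⟩ := hL X (((le_max_right _ _).trans (le_max_right _ _)).trans hX)
  have hSt0 : Stp X w V p0 (fun j : Fin 0 => j.elim0) :=
    { hp := hSt.hp, hpV := hSt.hpV, hV := hSt.hV, hw := hSt.hw, hlog := hSt.hlog, hs := hSt.hs
      ha := fun j => j.elim0, hd := fun j => j.elim0, hVa := fun j => j.elim0, ha1 := fun j => j.elim0
      haX := fun j => j.elim0 }
  obtain ⟨hT1, -⟩ := hT X w V p0 0 _ ((le_max_left _ _).trans hX) hSt0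
  have hp0V : 1 ≤ V * p0 :=
    Nat.one_le_iff_ne_zero.2 (mul_ne_zero (by have := hSt.hV; omega) hSt.hp.ne_zero)
  obtain ⟨err, herr0, herr1, herr2⟩ := hE X p0 (a l) (c l) (V * p0)
    (((le_max_left _ _).trans (le_max_right _ _)).trans hX) hBv (hSt.ha1 l) (dvd_mul_left _ _) (hSt.ha l)
  have hX25 : RR X * RR X = (X : ℝ) ^ ((2 : ℝ) / 5) := by
    unfold RR
    rw [← Real.rpow_add_of_nonneg (by positivity) (by norm_num) (by norm_num)]
    norm_num
  rw [← hX25] at herr2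
  change ∀ D b0 : ℕ, D ∣ PqV (V * p0) (RR X) → (a l * b0 + c l).Coprime D →
      |(((BpC X (a l) (c l)).filter (fun b => b ≡ b0 [MOD D])).card : ℝ) - ((BpC X (a l) (c l)).card : ℝ) /
          (D.totient : ℝ)| ≤ err D at herr1
  change ∑ D ∈ (PqV (V * p0) (RR X)).divisors.filter (fun D : ℕ => (D : ℝ) ≤ RR X * RR X),
        (D.divisors.card : ℝ) ^ (2 * k) * err D ≤ X * Real.exp (-(Real.log X) ^ ((1 : ℝ) / 300)) at herr2
  set R := RR X with hRd
  set G := GG (V * p0) X with hGd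
  set ex := Real.exp (-(Real.log X) ^ ((1 : ℝ) / 300)) with hex
  have hR1 : (1 : ℝ) ≤ R := by linarith
  have hw1 : 1 ≤ w := by
    have h6 : (1 : ℝ) ≤ w := le_trans (by nlinarith) hSt.hw
    exact_mod_cast h6
  have hG0 : 0 ≤ G := by
    rw [hGd]
    unfold GG
    have h6 : 0 < dlV (V * p0) := dlV_pos hp0V
    rw [← hRd]
    positivity
  have hex0 : 0 < ex := Real.exp_pos _
  rw [Nat.add_sub_cancel]
  -- the functions
  have hpfb : ∀ i n, |pfn (P i) R n| ≤ M0 * Real.log R ^ 2 := fun i n =>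
    ((h3 (P i) R hR1 (hPok i)).1 n).trans (mul_le_mul_of_nonneg_right (hM i) (by positivity))
  have hpfs : ∀ i, Sup (R ^ bd i) (pfn (P i) R) := fun i =>
    (h3 (P i) R hR1 (hPok i)).2.1 (bd i) fun s => (hV.be i s).2
  have hAFl : ∀ b ∈ BpC X (a l) (c l), ∀ i, AF (V * p0) R (pfn (P i) R) (a l * b + c l) = Real.log R ^ 2 * im (P i) := by
    intro b hb i
    obtain ⟨hb1, hb2, hb3⟩ := mem_filter.1 hb
    rw [← (h3 (P i) R hR1 (hPok i)).2.2]
    refine (h4 (V * p0) R (pfn (P i) R)).2.2 _ hb3 (hb2.trans_le ?_) (by linarith)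
    have h6 : b ≤ a l * b + c l := (Nat.le_mul_of_pos_left b (hSt.ha1 l)).trans (Nat.le_add_right _ _)
    exact_mod_cast h6
  have hsub : ∀ F : Fin (k + 1) → ℝ, ∏ j ∈ univ.erase l, F j = ∏ j : {j : Fin (k + 1) // j ≠ l}, F j :=
    fun F => Finset.prod_subtype _ (fun x => by simp) F
  have hcard : Fintype.card {j : Fin (k + 1) // j ≠ l} = k := by
    have h6 := Finset.card_erase_of_mem (mem_univ l)
    rw [card_univ, Fintype.card_fin, Nat.add_sub_cancel] at h6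
    exact (Fintype.card_of_subtype _ fun x => by simp).trans h6
  set n := ((BpC X (a l) (c l)).card : ℝ) with hn
  have hn0 : 0 ≤ n := Nat.cast_nonneg _
  set ε := 1 / Real.sqrt (Real.log X) with hε
  have hε0 : 0 ≤ ε := by positivity
  have hε1 : ε ≤ 1 := by
    rw [hε, div_le_one (by linarith)]
    exact hsq
  set E := n * ((2 * C * G) ^ k * (k * ε + (Real.exp (C' / Real.log (Real.log X) ^ 2) - 1))) +
    (M0 * Real.log R ^ 2) ^ (2 * k) * (X * ex) with hEd
  -- the sum for one pair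
  have hpair : ∀ v ∈ 𝒜, ∀ u ∈ 𝒜,
      |∑ b ∈ BpC X (a l) (c l), ∏ j ∈ univ.erase l, (AF (V * p0) R (pfn (P (v j)) R) (a j * b + c j) *
          AF (V * p0) R (pfn (P (u j)) R) (a j * b + c j)) -
        n * (G ^ k * ∏ j ∈ univ.erase l, ip (P (v j)) (P (u j)))| ≤ E := by
    intro v hv u hu
    have h6 := hS {j : Fin (k + 1) // j ≠ l} (V * p0) w (a l) (c l) R (M0 * Real.log R ^ 2) (fun _ => C * G)
      (fun j => a j) (fun j => c j) (BpC X (a l) (c l)) err
      (fun i => pfn (P (cond i.2 (v i.1) (u i.1))) R) (fun i => R ^ bd (cond i.2 (v i.1) (u i.1)))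
      hcard.le hw1 hp0V (by linarith)
      (fun q hq => by
        obtain ⟨hq1, hq2, -⟩ := mem_QsV.1 hq
        refine ⟨?_, hSt.ha l q hq1 hq2⟩
        by_contra h6
        exact hq2 (hSt.hs q hq1 (not_lt.1 h6)))
      (fun j q hq => by
        obtain ⟨hq1, hq2, -⟩ := mem_QsV.1 hq
        exact ⟨hSt.ha j q hq1 hq2, hSt.hd l j (Ne.symm j.2) q hq1 hq2⟩)
      (fun j j' hjk q hq => by
        obtain ⟨hq1, hq2, -⟩ := mem_QsV.1 hq
        exact hSt.hd j j' (fun h => hjk (Subtype.ext h)) q hq1 hq2)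
      herr0 herr1 (fun i n => hpfb _ n)
      (fun i => ⟨by positivity, by
        calc R ^ bd (cond i.2 (v i.1) (u i.1)) ≤ R ^ (1 : ℝ) :=
              Real.rpow_le_rpow_of_exponent_le hR1 (hV.one _)
          _ = R := Real.rpow_one R, hpfs _⟩)
      (fun j b c => (hT1 (v j) (u j)).2 b c)
    have h7 := MbC_prody bd l v u R hR1 hbd (hV.simp v hv) (hV.simp u hu)
    rw [hcard, prod_const, card_univ, hcard] at h6
    simp only [cond_true, cond_false] at h6
    rw [← hn] at h6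
    -- the sum over D
    have h8 : ∑ D ∈ (PqV (V * p0) R).divisors.filter
        (fun D : ℕ => (D : ℝ) ≤ ∏ i : {j : Fin (k + 1) // j ≠ l} × Bool, R ^ bd (cond i.2 (v i.1) (u i.1))),
        (D.divisors.card : ℝ) ^ (2 * k) * err D ≤ X * ex := by
      refine le_trans (sum_le_sum_of_subset_of_nonneg ?_ ?_) herr2
      · intro D hD
        rw [mem_filter] at hD ⊢
        exact ⟨hD.1, hD.2.trans h7⟩
      · exact fun D _ _ => mul_nonneg (by positivity) (herr0 D)
    -- the products of the correlation sums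
    have h9 := MbC_pert (univ : Finset {j : Fin (k + 1) // j ≠ l})
      (fun j => TTF (V * p0) R (pfn (P (v j)) R) (pfn (P (u j)) R) 1 1)
      (fun j => G * ip (P (v j)) (P (u j))) (2 * C * G) ε (by positivity)
      (fun j => ((hT1 (v j) (u j)).2 1 1).trans (by nlinarith))
      (fun j => by
        have h10 := (hT1 (v j) (u j)).1
        have h11 := (hT1 (v j) (u j)).2 1 1
        have h12 : C * (G / Real.sqrt (Real.log X)) ≤ C * G := by
          refine mul_le_mul_of_nonneg_left (div_le_self hG0 hsq) hC.le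
        have h13 : |G * ip (P (v j)) (P (u j))| ≤
            |TTF (V * p0) R (pfn (P (v j)) R) (pfn (P (u j)) R) 1 1| +
            |TTF (V * p0) R (pfn (P (v j)) R) (pfn (P (u j)) R) 1 1 - G * ip (P (v j)) (P (u j))| := by
          have h14 := abs_sub_abs_le_abs_sub (G * ip (P (v j)) (P (u j)))
            (TTF (V * p0) R (pfn (P (v j)) R) (pfn (P (u j)) R) 1 1)
          rw [abs_sub_comm] at h14
          linarith
        linarith)
      (fun j => by
        refine ((hT1 (v j) (u j)).1).trans ?_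
        rw [hε]
        have h10 : C * (G / Real.sqrt (Real.log X)) = C * G * (1 / Real.sqrt (Real.log X)) := by ring
        rw [h10]
        refine mul_le_mul_of_nonneg_right ?_ (by positivity)
        nlinarith)
    rw [card_univ, hcard, prod_mul_distrib, prod_const, card_univ, hcard] at h9
    rw [hsub (fun j => ip (P (v j)) (P (u j)))]
    have h10 : ∑ b ∈ BpC X (a l) (c l), ∏ j ∈ univ.erase l, (AF (V * p0) R (pfn (P (v j)) R) (a j * b + c j) *
          AF (V * p0) R (pfn (P (u j)) R) (a j * b + c j)) =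
        ∑ b ∈ BpC X (a l) (c l), ∏ j : {j : Fin (k + 1) // j ≠ l}, (AF (V * p0) R (pfn (P (v j)) R) (a j * b + c j) *
          AF (V * p0) R (pfn (P (u j)) R) (a j * b + c j)) :=
      sum_congr rfl fun b _ => hsub fun j => (AF (V * p0) R (pfn (P (v j)) R) (a j * b + c j) *
          AF (V * p0) R (pfn (P (u j)) R) (a j * b + c j))
    rw [h10]
    set S := ∑ b ∈ BpC X (a l) (c l), ∏ j : {j : Fin (k + 1) // j ≠ l},
      (AF (V * p0) R (pfn (P (v j)) R) (a j * b + c j) * AF (V * p0) R (pfn (P (u j)) R) (a j * b + c j)) with hSd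
    set Q := ∏ j : {j : Fin (k + 1) // j ≠ l}, TTF (V * p0) R (pfn (P (v j)) R) (pfn (P (u j)) R) 1 1 with hQ
    set I := ∏ j : {j : Fin (k + 1) // j ≠ l}, ip (P (v j)) (P (u j)) with hI
    have h11 : S - n * (G ^ k * I) = (S - n * Q) + n * (Q - G ^ k * I) := by ring
    have h12 : |n * (Q - G ^ k * I)| ≤ n * (k * (2 * C * G) ^ k * ε) := by
      rw [abs_mul, abs_of_nonneg hn0]
      exact mul_le_mul_of_nonneg_left h9 hn0
    have h13 : Real.exp (C' / w) - 1 ≤ Real.exp (C' / Real.log (Real.log X) ^ 2) - 1 := by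
      have h14 : C' / w ≤ C' / Real.log (Real.log X) ^ 2 :=
        div_le_div_of_nonneg_left hC'.le (by positivity) hSt.hw
      have h15 := Real.exp_le_exp.2 h14
      linarith
    have h14 : (C * G) ^ k ≤ (2 * C * G) ^ k :=
      pow_le_pow_left₀ (by positivity) (by nlinarith [mul_nonneg hC.le hG0]) k
    have h15 : 0 ≤ Real.exp (C' / w) - 1 := by
      have h16 : (0 : ℝ) ≤ C' / w := by positivity
      have h17 := Real.one_le_exp h16
      linarith
    have h16 : n * ((C * G) ^ k * (Real.exp (C' / w) - 1)) ≤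
        n * ((2 * C * G) ^ k * (Real.exp (C' / Real.log (Real.log X) ^ 2) - 1)) :=
      mul_le_mul_of_nonneg_left (mul_le_mul h14 h13 h15 (by positivity)) hn0
    have h17 : (M0 * Real.log R ^ 2) ^ (2 * k) *
        ∑ D ∈ (PqV (V * p0) R).divisors.filter
        (fun D : ℕ => (D : ℝ) ≤ ∏ i : {j : Fin (k + 1) // j ≠ l} × Bool, R ^ bd (cond i.2 (v i.1) (u i.1))),
        (D.divisors.card : ℝ) ^ (2 * k) * err D ≤ (M0 * Real.log R ^ 2) ^ (2 * k) * (X * ex) :=
      mul_le_mul_of_nonneg_left h8 (by positivity)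
    rw [h11]
    refine (abs_add_le _ _).trans ?_
    have h18 : E = n * (k * (2 * C * G) ^ k * ε) +
        n * ((2 * C * G) ^ k * (Real.exp (C' / Real.log (Real.log X) ^ 2) - 1)) +
        (M0 * Real.log R ^ 2) ^ (2 * k) * (X * ex) := by
      rw [hEd]
      ring
    linarith
  -- the sum over the pairs
  have hsum : ∑ b ∈ BpC X (a l) (c l), WWC (V * p0) X P 𝒜 a c b ^ 2 - n * (Real.log R ^ 4 * G ^ k * Jq P 𝒜 l) =
      ∑ v ∈ 𝒜, ∑ u ∈ 𝒜, Real.log R ^ 4 * (im (P (v l)) * im (P (u l))) *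
        (∑ b ∈ BpC X (a l) (c l), ∏ j ∈ univ.erase l, (AF (V * p0) R (pfn (P (v j)) R) (a j * b + c j) *
          AF (V * p0) R (pfn (P (u j)) R) (a j * b + c j)) -
        n * (G ^ k * ∏ j ∈ univ.erase l, ip (P (v j)) (P (u j)))) := by
    have e1 : ∑ b ∈ BpC X (a l) (c l), WWC (V * p0) X P 𝒜 a c b ^ 2 =
        ∑ v ∈ 𝒜, ∑ u ∈ 𝒜, Real.log R ^ 4 * (im (P (v l)) * im (P (u l))) *
        ∑ b ∈ BpC X (a l) (c l), ∏ j ∈ univ.erase l, (AF (V * p0) R (pfn (P (v j)) R) (a j * b + c j) *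
          AF (V * p0) R (pfn (P (u j)) R) (a j * b + c j)) := by
      rw [sum_congr rfl fun b _ => MbC_sq (V * p0) X P 𝒜 a c b, sum_comm]
      refine sum_congr rfl fun v _ => ?_
      rw [sum_comm]
      refine sum_congr rfl fun u _ => ?_
      rw [mul_sum]
      refine sum_congr rfl fun b hb => ?_
      rw [← mul_prod_erase univ _ (mem_univ l), ← hRd, hAFl b hb (v l), hAFl b hb (u l)]
      ring
    rw [e1]
    unfold Jq
    simp only [mul_sub, sum_sub_distrib, mul_sum]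
    congr 1
    refine sum_congr rfl fun v _ => sum_congr rfl fun u _ => ?_
    ring
  rw [hsum]
  have hE0 : 0 ≤ E := by
    rw [hEd]
    have h6 : 0 ≤ Real.exp (C' / Real.log (Real.log X) ^ 2) - 1 := by
      have h16 : (0 : ℝ) ≤ C' / Real.log (Real.log X) ^ 2 := by positivity
      have h17 := Real.one_le_exp h16
      linarith
    positivity
  have hb1 : ∀ v ∈ 𝒜, ∀ u ∈ 𝒜, |Real.log R ^ 4 * (im (P (v l)) * im (P (u l))) *
        (∑ b ∈ BpC X (a l) (c l), ∏ j ∈ univ.erase l, (AF (V * p0) R (pfn (P (v j)) R) (a j * b + c j) *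
          AF (V * p0) R (pfn (P (u j)) R) (a j * b + c j)) -
        n * (G ^ k * ∏ j ∈ univ.erase l, ip (P (v j)) (P (u j))))| ≤ Real.log R ^ 4 * M0 ^ 2 * E := by
    intro v hv u hu
    rw [abs_mul, abs_mul, abs_mul, abs_of_nonneg (by positivity : (0 : ℝ) ≤ Real.log R ^ 4)]
    refine mul_le_mul (mul_le_mul_of_nonneg_left ?_ (by positivity)) (hpair v hv u hu) (abs_nonneg _)
      (by positivity)
    rw [sq]
    exact mul_le_mul ((MbC_im _ (hPok _)).trans (hM _)) ((MbC_im _ (hPok _)).trans (hM _)) (abs_nonneg _) hM0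
  have hb2 : |∑ v ∈ 𝒜, ∑ u ∈ 𝒜, Real.log R ^ 4 * (im (P (v l)) * im (P (u l))) *
        (∑ b ∈ BpC X (a l) (c l), ∏ j ∈ univ.erase l, (AF (V * p0) R (pfn (P (v j)) R) (a j * b + c j) *
          AF (V * p0) R (pfn (P (u j)) R) (a j * b + c j)) -
        n * (G ^ k * ∏ j ∈ univ.erase l, ip (P (v j)) (P (u j))))| ≤
      (𝒜.card : ℝ) ^ 2 * (Real.log R ^ 4 * M0 ^ 2 * E) := by
    have h6 : (𝒜.card : ℝ) ^ 2 * (Real.log R ^ 4 * M0 ^ 2 * E) =
        ∑ v ∈ 𝒜, ∑ u ∈ 𝒜, Real.log R ^ 4 * M0 ^ 2 * E := by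
      rw [sum_const, sum_const, nsmul_eq_mul, nsmul_eq_mul]
      ring
    rw [h6]
    refine (abs_sum_le_sum_abs _ _).trans (sum_le_sum fun v hv => ?_)
    exact (abs_sum_le_sum_abs _ _).trans (sum_le_sum fun u hu => hb1 v hv u hu)
  refine hb2.trans ?_
  have e2 : (𝒜.card : ℝ) ^ 2 * (Real.log R ^ 4 * M0 ^ 2 * E) =
      n * (Real.log R ^ 4 * G ^ k * ((𝒜.card : ℝ) ^ 2 * M0 ^ 2 * (2 * C) ^ k *
        (k * ε + (Real.exp (C' / Real.log (Real.log X) ^ 2) - 1)))) +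
      X * ((𝒜.card : ℝ) ^ 2 * M0 ^ 2 * M0 ^ (2 * k) * (Real.log R ^ (4 + 4 * k) * ex)) := by
    rw [hEd, mul_pow (2 * C) G, mul_pow M0, ← pow_mul (Real.log R), pow_add (Real.log R)]
    have e3 : 2 * (2 * k) = 4 * k := by ring
    rw [e3]
    ring
  rw [e2]
  have h6 : n * (Real.log R ^ 4 * G ^ k * ((𝒜.card : ℝ) ^ 2 * M0 ^ 2 * (2 * C) ^ k *
        (k * ε + (Real.exp (C' / Real.log (Real.log X) ^ 2) - 1)))) ≤
      n * (Real.log R ^ 4 * G ^ k * η) :=
    mul_le_mul_of_nonneg_left (mul_le_mul_of_nonneg_left hLη (by positivity)) hn0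
  have h7 : X * ((𝒜.card : ℝ) ^ 2 * M0 ^ 2 * M0 ^ (2 * k) * (Real.log R ^ (4 + 4 * k) * ex)) ≤ X * 1 :=
    mul_le_mul_of_nonneg_left hLN (Nat.cast_nonneg X)
  rw [mul_one] at h7
  exact add_le_add h6 h7

end Pool.Agent.Lib.BE
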