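import Pool.Agent.Lib.BE.SpecB

/-!
PROJECT BE (note 5284), module PdC (helper92): replacing the profile at one coordinate by a multiple of psi.
-/

set_option autoImplicit false

namespace Pool.Agent.Lib.BE

open Finset
open Pool.Agent.Lib.MP_9f2731_nt.GP Pool.Agent.Lib.MP_9f2731_nt.GP.Sv
open Pool.Agent.Lib.MP_9f2731_nt.QL Pool.Agent.Lib.MP_9f2731_nt.QL.Sw Pool.Agent.Lib.MP_9f2731_nt.CG
open Pool.Agent.Lib.MP_9f2731_nt.CG.Ma Pool.Agent.Lib.MP_9f2731_nt.CG.Mf

private def PdC_phi {K r : ℕ} (j : Fin K) (v : Fin K → Fin r) (i : Fin K) : Fin (r + r) :=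
  if i = j then Fin.natAdd r (v j) else Fin.castAdd r (v i)

private theorem PdC_inj {K r : ℕ} (j : Fin K) :
    Function.Injective (PdC_phi j : (Fin K → Fin r) → Fin K → Fin (r + r)) := by
  intro v u h
  funext i
  have hi := congrFun h i
  unfold PdC_phi at hi
  by_cases hij : i = j
  · rw [if_pos hij, if_pos hij] at hi
    rw [hij]
    exact Fin.natAdd_injective _ _ hi
  · rw [if_neg hij, if_neg hij] at hi
    exact Fin.castAdd_injective _ _ hi

private theorem PdC_P {K r : ℕ} (P Q : Fin r → Pf) (j : Fin K) (v : Fin K → Fin r) (i : Fin K) :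
    Fin.append P Q (PdC_phi j v i) = if i = j then Q (v j) else P (v i) := by
  unfold PdC_phi
  by_cases hij : i = j
  · rw [if_pos hij, if_pos hij, Fin.append_right]
  · rw [if_neg hij, if_neg hij, Fin.append_left]

private theorem PdC_b {K r : ℕ} (P Q : Fin r → ℝ) (j : Fin K) (v : Fin K → Fin r) (i : Fin K) :
    Fin.append P Q (PdC_phi j v i) = if i = j then Q (v j) else P (v i) := by
  unfold PdC_phi
  by_cases hij : i = j
  · rw [if_pos hij, if_pos hij, Fin.append_right]
  · rw [if_neg hij, if_neg hij, Fin.append_left]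

theorem tPdC (h1 : PsCStmt) : PdCStmt := by
  intro K r P bd 𝒜 l j hV hhalf hip him hlj
  have hbd : ∀ a, 0 ≤ bd a := fun a => (hV.be a 0).1.trans (hV.be a 0).2
  refine ⟨PdC_phi j, fun v i => rfl, PdC_inj j, ⟨hV.hK, ?_, ?_, ?_, ?_⟩, ?_⟩
  · -- be
    intro a s
    refine Fin.addCases (fun a => ?_) (fun a => ?_) a
    · rw [Fin.append_left, Fin.append_left]
      exact hV.be a s
    · rw [Fin.append_right, Fin.append_right]
      fin_cases s <;> norm_num [psi]
  · intro a
    refine Fin.addCases (fun a => ?_) (fun a => ?_) a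
    · rw [Fin.append_left]
      exact hV.one a
    · rw [Fin.append_right]
      norm_num
  · intro w hw
    obtain ⟨v, hv, rfl⟩ := Finset.mem_image.mp hw
    have e1 : ∀ i ∈ (univ : Finset (Fin K)), Fin.append bd (fun _ => (1 / 2 : ℝ)) (PdC_phi j v i) ≤
        bd (v i) + (if i = j then (1 / 2 : ℝ) else 0) := by
      intro i _
      rw [PdC_b]
      by_cases hij : i = j
      · rw [if_pos hij, if_pos hij]
        linarith [hbd (v i)]
      · rw [if_neg hij, if_neg hij]
        linarith
    refine (Finset.sum_le_sum e1).trans ?_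
    rw [Finset.sum_add_distrib, Finset.sum_ite_eq' univ j, if_pos (Finset.mem_univ j)]
    linarith [hhalf v hv]
  · -- pos
    have hex : ∃ v ∈ 𝒜, ∃ u ∈ 𝒜, 0 < ∏ i, ip (P (v i)) (P (u i)) := by
      by_contra hcon
      push Not at hcon
      have h0 : Iq P 𝒜 ≤ 0 := by
        unfold Iq
        exact Finset.sum_nonpos fun v hv => Finset.sum_nonpos fun u hu => hcon v hv u hu
      exact absurd hV.pos (not_lt.mpr h0)
    have hnn : ∀ v u : Fin K → Fin r, ∀ i : Fin K, 0 ≤
        ip (Fin.append P (fun a => psi (im (P a))) (PdC_phi j v i))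
          (Fin.append P (fun a => psi (im (P a))) (PdC_phi j u i)) := by
      intro v u i
      rw [PdC_P, PdC_P]
      by_cases hij : i = j
      · rw [if_pos hij, if_pos hij, (h1 _ _).2]
        have a1 := him (v j)
        have a2 := him (u j)
        positivity
      · rw [if_neg hij, if_neg hij]
        exact hip _ _
    obtain ⟨v, hv, u, hu, hvu⟩ := hex
    have hfac : ∀ i, 0 < ip (P (v i)) (P (u i)) := by
      intro i
      refine lt_of_le_of_ne (hip _ _) fun h => ?_
      rw [Finset.prod_eq_zero (Finset.mem_univ i) h.symm] at hvu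
      exact lt_irrefl _ hvu
    unfold Iq
    refine Finset.sum_pos' (fun w hw => Finset.sum_nonneg fun x hx => ?_)
      ⟨PdC_phi j v, Finset.mem_image_of_mem _ hv, Finset.sum_pos' (fun x hx => ?_)
        ⟨PdC_phi j u, Finset.mem_image_of_mem _ hu, Finset.prod_pos fun i _ => ?_⟩⟩
    · obtain ⟨w', _, rfl⟩ := Finset.mem_image.mp hw
      obtain ⟨x', _, rfl⟩ := Finset.mem_image.mp hx
      exact Finset.prod_nonneg fun i _ => hnn w' x' i
    · obtain ⟨x', _, rfl⟩ := Finset.mem_image.mp hx
      exact Finset.prod_nonneg fun i _ => hnn v x' i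
    · rw [PdC_P, PdC_P]
      by_cases hij : i = j
      · rw [if_pos hij, if_pos hij, (h1 _ _).2]
        have a1 := him (v j)
        have a2 := him (u j)
        positivity
      · rw [if_neg hij, if_neg hij]
        exact hfac i
  · -- Jq
    unfold Jq Jq2
    rw [Finset.sum_image fun a _ b _ h => PdC_inj j h, Finset.mul_sum]
    refine Finset.sum_congr rfl fun v hv => ?_
    rw [Finset.sum_image fun a _ b _ h => PdC_inj j h, Finset.mul_sum]
    refine Finset.sum_congr rfl fun u hu => ?_
    have hjm : j ∈ univ.erase l := Finset.mem_erase.mpr ⟨fun h => hlj h.symm, Finset.mem_univ j⟩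
    have e2 : ∏ i ∈ univ.erase l, ip (Fin.append P (fun a => psi (im (P a))) (PdC_phi j v i))
          (Fin.append P (fun a => psi (im (P a))) (PdC_phi j u i)) =
        8 / 3 * (im (P (v j)) * im (P (u j))) *
          ∏ i ∈ (univ.erase l).erase j, ip (P (v i)) (P (u i)) := by
      rw [← Finset.mul_prod_erase _ _ hjm, PdC_P, PdC_P, if_pos rfl, if_pos rfl, (h1 _ _).2]
      congr 1
      refine Finset.prod_congr rfl fun i hi => ?_
      have hij : i ≠ j := (Finset.mem_erase.mp hi).1
      rw [PdC_P, PdC_P, if_neg hij, if_neg hij]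
    rw [e2, PdC_P, PdC_P, if_neg hlj, if_neg hlj]
    ring

end Pool.Agent.Lib.BE
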