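import Pool.Agent.Lib.BE.SpecB

/-!
PROJECT BE, module PrC (helper26): pairs.
-/

set_option autoImplicit false

namespace Pool.Agent.Lib.BE

open Finset
open Pool.Agent.Lib.MP_9f2731_nt.GP Pool.Agent.Lib.MP_9f2731_nt.GP.Sv
  Pool.Agent.Lib.MP_9f2731_nt.QL Pool.Agent.Lib.MP_9f2731_nt.QL.Sw Pool.Agent.Lib.MP_9f2731_nt.CG
  Pool.Agent.Lib.MP_9f2731_nt.CG.Ma Pool.Agent.Lib.MP_9f2731_nt.CG.Mf

private theorem PrC_pok (x : ℝ) : Pok (psi x) := by
  intro s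
  fin_cases s
  · constructor <;> norm_num [psi]
  · constructor <;> norm_num [psi]
  · constructor <;> norm_num [psi]

/-- at a prime above the level the weight of a profile is (log R)^2 times its integral -/
private theorem PrC_af (h4 : PfBStmt) (h5 : AfPStmt) (W : ℕ) (R : ℝ) (hR : 1 ≤ R) (P : Pf) (hP : Pok P)
    (q : ℕ) (hq : q.Prime) (hqR : R < (q : ℝ)) :
    AF W R (pfn P R) q = (Real.log R) ^ 2 * im P := by
  rw [(h5 W R (pfn P R)).2.2 q hq hqR (by linarith)]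
  exact (h4 P R hR hP).2.2

/-- the two weights agree on the primes of the form j -/
private theorem PrC_w (h3 : PsCStmt) (h4 : PfBStmt) (h5 : AfPStmt) {K r : ℕ} (P : Fin r → Pf)
    (𝒜 : Finset (Fin K → Fin r)) (hP : ∀ i, Pok (P i)) (j : Fin K)
    (φ : (Fin K → Fin r) → Fin K → Fin (r + r))
    (hφ : ∀ v i, φ v i = if i = j then Fin.natAdd r (v j) else Fin.castAdd r (v i))
    (hinj : Function.Injective φ) (W X : ℕ) (hX : 1 ≤ RR X) (a c : Fin K → ℕ) (haj : 1 ≤ a j) (b : ℕ)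
    (hb : b ∈ BpC X (a j) (c j)) :
    WWC W X (Fin.append P (fun a => psi (im (P a)))) (𝒜.image φ) a c b = WWC W X P 𝒜 a c b := by
  unfold BpC at hb
  obtain ⟨hb1, hb2, hb3⟩ := mem_filter.mp hb
  have hq : RR X < ((a j * b + c j : ℕ) : ℝ) := by
    refine lt_of_lt_of_le hb2 ?_
    have h1 : b ≤ a j * b + c j := by
      have := Nat.mul_le_mul_right b haj
      omega
    exact_mod_cast h1
  unfold WWC
  rw [sum_image (fun x _ y _ h => hinj h)]
  apply sum_congr rfl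
  intro v _
  apply prod_congr rfl
  intro i _
  rw [hφ v i]
  by_cases hij : i = j
  · subst hij
    rw [if_pos rfl, Fin.append_right, PrC_af h4 h5 W (RR X) hX _ (PrC_pok _) _ hb3 hq,
      PrC_af h4 h5 W (RR X) hX _ (hP _) _ hb3 hq, (h3 (im (P (v i))) 0).1]
  · rw [if_neg hij, Fin.append_left]

theorem tPrC (h1 : MbCStmt) (h2 : PdCStmt) (h3 : PsCStmt) (h4 : PfBStmt) (h5 : AfPStmt) : PrCStmt := by
  intro K r P bd 𝒜 hV hhalf hipn himp η hη
  have hP : ∀ i, Pok (P i) := fun i s =>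
    ⟨(hV.be i s).1, (hV.be i s).2.trans (hV.one i)⟩
  have key : ∀ l j : Fin K, ∃ X1 : ℝ, l ≠ j → ∃ φ : (Fin K → Fin r) → Fin K → Fin (r + r),
      (∀ v i, φ v i = if i = j then Fin.natAdd r (v j) else Fin.castAdd r (v i)) ∧
      Function.Injective φ ∧
      Jq (Fin.append P (fun a => psi (im (P a)))) (𝒜.image φ) l = 8 / 3 * Jq2 P 𝒜 l j ∧
      ∀ (X w V p0 : ℕ) (a c : Fin K → ℕ), X1 ≤ X →
      StC X w V p0 a c → BvC X p0 (a l) (c l) →
      |∑ b ∈ BpC X (a l) (c l), WWC (V * p0) X (Fin.append P (fun a => psi (im (P a))))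
          (𝒜.image φ) a c b ^ 2
        - ((BpC X (a l) (c l)).card : ℝ) * (Real.log (RR X) ^ 4 * GG (V * p0) X ^ (K - 1) *
          Jq (Fin.append P (fun a => psi (im (P a)))) (𝒜.image φ) l)| ≤
        ((BpC X (a l) (c l)).card : ℝ) * (Real.log (RR X) ^ 4 * GG (V * p0) X ^ (K - 1) * η) + X := by
    intro l j
    by_cases hlj : l = j
    · exact ⟨0, fun h => absurd hlj h⟩
    · obtain ⟨φ, hφ1, hφ2, hφ3, hφ4⟩ := h2 K r P bd 𝒜 l j hV hhalf hipn himp hlj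
      obtain ⟨X1, hX1⟩ := h1 K (r + r) _ _ _ hφ3 η hη
      exact ⟨X1, fun _ => ⟨φ, hφ1, hφ2, hφ4, fun X w V p0 a c hX hS hB =>
        hX1 X w V p0 a c l hX hS hB⟩⟩
  choose X1 hX1 using key
  refine ⟨max 1 (∑ l, ∑ j, |X1 l j|), ?_⟩
  intro X w V p0 a c l j hX hS hB hlj
  have hX1' : (1 : ℝ) ≤ X := (le_max_left _ _).trans hX
  have hX2 : X1 l j ≤ X := by
    have e1 : |X1 l j| ≤ ∑ j', |X1 l j'| :=
      single_le_sum (f := fun j' => |X1 l j'|) (fun _ _ => abs_nonneg _) (mem_univ j)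
    have e2 : ∑ j', |X1 l j'| ≤ ∑ l', ∑ j', |X1 l' j'| :=
      single_le_sum (f := fun l' => ∑ j', |X1 l' j'|)
        (fun _ _ => sum_nonneg fun _ _ => abs_nonneg _) (mem_univ l)
    exact (le_abs_self _).trans (e1.trans (e2.trans ((le_max_right _ _).trans hX)))
  obtain ⟨φ, hφ1, hφ2, hφ4, hmain⟩ := hX1 l j hlj
  have hR : 1 ≤ RR X := by
    unfold RR
    exact Real.one_le_rpow hX1' (by norm_num)
  have h6 := (abs_le.mp (hmain X w V p0 a c hX2 hS hB)).2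
  rw [hφ4] at h6
  have h7 : ∑ b ∈ BpC X (a l) (c l) ∩ BpC X (a j) (c j), WWC (V * p0) X P 𝒜 a c b ^ 2
      = ∑ b ∈ BpC X (a l) (c l) ∩ BpC X (a j) (c j),
        WWC (V * p0) X (Fin.append P (fun a => psi (im (P a)))) (𝒜.image φ) a c b ^ 2 := by
    apply sum_congr rfl
    intro b hb
    rw [PrC_w h3 h4 h5 P 𝒜 hP j φ hφ1 hφ2 (V * p0) X hR a c (hS.ha1 j) b (mem_inter.mp hb).2]
  have h8 : ∑ b ∈ BpC X (a l) (c l) ∩ BpC X (a j) (c j),
        WWC (V * p0) X (Fin.append P (fun a => psi (im (P a)))) (𝒜.image φ) a c b ^ 2 ≤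
      ∑ b ∈ BpC X (a l) (c l),
        WWC (V * p0) X (Fin.append P (fun a => psi (im (P a)))) (𝒜.image φ) a c b ^ 2 :=
    sum_le_sum_of_subset_of_nonneg inter_subset_left (fun _ _ _ => sq_nonneg _)
  rw [h7]
  refine h8.trans ?_
  have h9 : ((BpC X (a l) (c l)).card : ℝ) * (Real.log (RR X) ^ 4 * GG (V * p0) X ^ (K - 1) *
      (8 / 3 * Jq2 P 𝒜 l j + η)) =
      ((BpC X (a l) (c l)).card : ℝ) * (Real.log (RR X) ^ 4 * GG (V * p0) X ^ (K - 1) *
        (8 / 3 * Jq2 P 𝒜 l j)) +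
      ((BpC X (a l) (c l)).card : ℝ) * (Real.log (RR X) ^ 4 * GG (V * p0) X ^ (K - 1) * η) := by
    ring
  rw [h9]
  linarith

end Pool.Agent.Lib.BE
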