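import Pool.Agent.Lib.BE.SpecB

/-!
PROJECT BE, module TnC (helper49): the variational problem with total cutoff 1/2 and its upper bounds. The profiles
`pr D a` of CG/Mv are used (IpV, SuV, MkV are proved), with `D = n M^2/(2 S)`, so that `m n α = 2 m`.
-/

set_option autoImplicit false

namespace Pool.Agent.Lib.BE

open Finset
open Pool.Agent.Lib.MP_9f2731_nt.GP
open Pool.Agent.Lib.MP_9f2731_nt.GP.Sv
open Pool.Agent.Lib.MP_9f2731_nt.QL
open Pool.Agent.Lib.MP_9f2731_nt.QL.Sw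
open Pool.Agent.Lib.MP_9f2731_nt.CG
open Pool.Agent.Lib.MP_9f2731_nt.CG.Ma
open Pool.Agent.Lib.MP_9f2731_nt.CG.Mf
open Pool.Agent.Lib.MP_9f2731_nt.CG.Mv

private theorem TnC_be {D : ℝ} (hD : 0 < D) (i : ℕ) (s : Fin 3) :
    0 ≤ (pr D i).be s ∧ (pr D i).be s ≤ 2 ^ (i + 1) / D := by
  unfold pr
  split_ifs with h
  · subst h
    fin_cases s
    · simp only [Fin.zero_eta, Matrix.cons_val_zero]
      refine ⟨by positivity, ?_⟩
      norm_num
    · simp only [Fin.mk_one, Matrix.cons_val_one, Matrix.cons_val_zero]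
      refine ⟨by positivity, ?_⟩
      gcongr
      norm_num
    · change (0 : ℝ) ≤ 0 ∧ (0 : ℝ) ≤ _
      exact ⟨le_rfl, by positivity⟩
  · fin_cases s
    · change (0 : ℝ) ≤ 2 ^ (i + 1) / D ∧ (2 : ℝ) ^ (i + 1) / D ≤ _
      exact ⟨by positivity, le_rfl⟩
    · change (0 : ℝ) ≤ 2 ^ i / D ∧ (2 : ℝ) ^ i / D ≤ _
      refine ⟨by positivity, ?_⟩
      gcongr
      · norm_num
      · omega
    · change (0 : ℝ) ≤ 2 ^ i / (2 * D) ∧ (2 : ℝ) ^ i / (2 * D) ≤ _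
      refine ⟨by positivity, ?_⟩
      have h1 : (2 : ℝ) ^ i / (2 * D) ≤ 2 ^ i / D := by
        gcongr
        linarith
      refine h1.trans ?_
      gcongr
      · norm_num
      · omega

private theorem TnC_Iq (h1 : IpVStmt) {D : ℝ} (hD : 0 < D) {K r : ℕ}
    (A : Finset (Fin K → Fin r)) :
    Iq (fun a : Fin r => pr D a) A =
      (∑ v ∈ A, ∑ u ∈ A, ∏ j, al (v j) (u j)) / (D ^ 3) ^ K := by
  unfold Iq
  rw [Finset.sum_div]
  refine Finset.sum_congr rfl fun v _ => ?_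
  rw [Finset.sum_div]
  refine Finset.sum_congr rfl fun u _ => ?_
  have h2 : ∀ j : Fin K, ip (pr D (v j)) (pr D (u j)) = al (v j) (u j) / D ^ 3 :=
    fun j => (h1 D hD _ _).1
  rw [Finset.prod_congr rfl fun j _ => h2 j, Finset.prod_div_distrib, Finset.prod_const,
    Finset.card_univ, Fintype.card_fin]

private theorem TnC_Jq (h1 : IpVStmt) {D : ℝ} (hD : 0 < D) {K r : ℕ}
    (A : Finset (Fin K → Fin r)) (l : Fin K) :
    Jq (fun a : Fin r => pr D a) A l =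
      (∑ v ∈ A, ∑ u ∈ A, mm (v l) * mm (u l) * ∏ j ∈ univ.erase l, al (v j) (u j)) /
        (D ^ 4 * (D ^ 3) ^ (K - 1)) := by
  unfold Jq
  rw [Finset.sum_div]
  refine Finset.sum_congr rfl fun v _ => ?_
  rw [Finset.sum_div]
  refine Finset.sum_congr rfl fun u _ => ?_
  have h2 : ∀ j : Fin K, ip (pr D (v j)) (pr D (u j)) = al (v j) (u j) / D ^ 3 :=
    fun j => (h1 D hD _ _).1
  have h3 : ∀ i : ℕ, im (pr D i) = mm i / D ^ 2 := fun i => (h1 D hD i i).2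
  rw [Finset.prod_congr rfl fun j _ => h2 j, Finset.prod_div_distrib, Finset.prod_const,
    Finset.card_erase_of_mem (Finset.mem_univ l), Finset.card_univ, Fintype.card_fin, h3, h3]
  have hD0 : D ≠ 0 := hD.ne'
  field_simp

open Classical in
theorem tTnC (h1 : IpVStmt) (h2 : SuVStmt) (h3 : MkVStmt) (h4 : TuCStmt) : TnCStmt := by
  intro m hm
  obtain ⟨q0, hq0⟩ : ∃ q0 : ℕ, q0 + 1 = 512 * m := ⟨512 * m - 1, by omega⟩
  obtain ⟨hal, hS1, hS3, hT, hM⟩ := h2 q0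
  rw [Finset.sum_range] at hS1 hS3 hT hM
  simp only [Finset.sum_range] at hS1 hS3 hT
  obtain ⟨N, hN⟩ : ∃ N : ℕ, N = 2 ^ (q0 + 1) := ⟨_, rfl⟩
  obtain ⟨S, hS⟩ : ∃ S : ℝ, S = ∑ i : Fin (q0 + 1), ∑ j : Fin (q0 + 1), al i j := ⟨_, rfl⟩
  obtain ⟨U, hUd⟩ : ∃ U : ℝ, U = ∑ i : Fin (q0 + 1), ∑ j : Fin (q0 + 1),
    2 ^ ((i : ℕ) + 1) * al i j := ⟨_, rfl⟩
  obtain ⟨M, hMd⟩ : ∃ M : ℝ, M = ∑ i : Fin (q0 + 1), mm i := ⟨_, rfl⟩
  obtain ⟨D, hDd⟩ : ∃ D : ℝ, D = N * M ^ 2 / (2 * S) := ⟨_, rfl⟩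
  rw [← hS] at hS1 hS3
  rw [← hUd] at hT
  rw [← hMd] at hM
  have hq : (q0 : ℝ) + 1 = 512 * m := by exact_mod_cast hq0
  have hm1 : (1 : ℝ) ≤ m := by exact_mod_cast hm
  have hN1 : 1 ≤ N := by rw [hN]; exact Nat.one_le_two_pow
  have hNr : (1 : ℝ) ≤ N := by exact_mod_cast hN1
  have hNp : (N : ℝ) = 2 ^ (q0 + 1) := by rw [hN]; push_cast; rfl
  have hSp : 0 < S := by linarith
  have hK1 : 1 ≤ m * N := Nat.one_le_iff_ne_zero.2 (by positivity)
  rw [hq] at hM hT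
  have hM2 : (384 * (m : ℝ)) ^ 2 ≤ M ^ 2 := pow_le_pow_left₀ (by positivity) (by linarith) 2
  have hMp : 0 < M := by linarith
  -- the size of D
  have hDlow : 24576 * (N * (m : ℝ) ^ 2) ≤ D := by
    rw [hDd, le_div_iff₀ (by positivity)]
    have e1 : 24576 * (N * (m : ℝ) ^ 2) * (2 * S) ≤ 24576 * (N * (m : ℝ) ^ 2) * (2 * 3) := by
      gcongr
    have e2 : (N : ℝ) * (384 * (m : ℝ)) ^ 2 ≤ N * M ^ 2 := by gcongr
    nlinarith
  have hmm2 : (m : ℝ) ≤ (m : ℝ) ^ 2 := by nlinarith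
  have hNm : (N : ℝ) ≤ N * (m : ℝ) ^ 2 := by
    have : (1 : ℝ) ≤ (m : ℝ) ^ 2 := by linarith
    nlinarith
  have hNmm : (N : ℝ) * m ≤ N * (m : ℝ) ^ 2 := by gcongr
  have hD : 0 < D := by nlinarith
  have hD0 : D ≠ 0 := hD.ne'
  have hDS : D * (2 * S) = N * M ^ 2 := by
    rw [hDd]
    field_simp
  have hpow : ∀ a : Fin (q0 + 1), (2 : ℝ) ^ ((a : ℕ) + 1) ≤ N := by
    intro a
    rw [hNp]
    exact pow_le_pow_right₀ (by norm_num) (by omega)
  have hsym : ∀ i j : Fin (q0 + 1), al i j = al j i := by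
    intro i j
    rcases eq_or_ne (i : ℕ) (j : ℕ) with h | h
    · rw [h]
    · unfold al
      rw [if_neg h, if_neg h.symm]
      split_ifs <;> first | rfl | omega
  have hmm : ∀ i : ℕ, 0 < mm i := by
    intro i
    unfold mm
    split_ifs <;> norm_num
  obtain ⟨hA, hB⟩ := h3 (m * N) (q0 + 1) (fun i j => al i j) (fun i => mm i)
    (fun a => 2 ^ ((a : ℕ) + 1)) (D / 2) N hK1 (fun i j => hal i j) hsym (fun i => (hmm i).le)
    (fun a => ⟨by positivity, hpow a⟩) (by linarith) (by rw [← hS]; linarith) (by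
      rw [← hS, ← hUd]
      push_cast
      have h5 : 4 * ((m : ℝ) * N - 1) * U ≤ 4 * ((m : ℝ) * N - 1) * (3 * (512 * m)) := by
        refine mul_le_mul_of_nonneg_left hT ?_
        nlinarith
      have h6 : (D / 2 - N) * 1 ≤ (D / 2 - N) * S := mul_le_mul_of_nonneg_left hS1 (by linarith)
      nlinarith)
  rw [← hS] at hA
  rw [← hS, ← hMd] at hB
  obtain ⟨A, hAd⟩ : ∃ A : Finset (Fin (m * N) → Fin (q0 + 1)),
    A = univ.filter (fun v : Fin (m * N) → Fin (q0 + 1) =>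
      ∑ j, (2 : ℝ) ^ ((v j : ℕ) + 1) ≤ D / 2) := ⟨_, rfl⟩
  rw [← hAd] at hA hB
  have hmem : ∀ v ∈ A, ∑ j, (2 : ℝ) ^ ((v j : ℕ) + 1) ≤ D / 2 := by
    intro v hv
    rw [hAd, Finset.mem_filter] at hv
    exact hv.2
  have hhalf : ∀ v ∈ A, ∑ j, (2 : ℝ) ^ ((v j : ℕ) + 1) / D ≤ 1 / 2 := by
    intro v hv
    rw [← Finset.sum_div, div_le_iff₀ hD]
    linarith [hmem v hv]
  have h0 : (fun _ : Fin (m * N) => (0 : Fin (q0 + 1))) ∈ A := by
    rw [hAd, Finset.mem_filter]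
    refine ⟨Finset.mem_univ _, ?_⟩
    rw [Finset.sum_const, Finset.card_univ, Fintype.card_fin, nsmul_eq_mul]
    push_cast
    norm_num
    nlinarith
  have hnn : ∀ v u : Fin (m * N) → Fin (q0 + 1), 0 ≤ ∏ j, al (v j) (u j) :=
    fun v u => Finset.prod_nonneg fun j _ => hal _ _
  have hpos : 0 < ∑ v ∈ A, ∑ u ∈ A, ∏ j, al (v j) (u j) := by
    refine Finset.sum_pos' (fun v _ => Finset.sum_nonneg fun u _ => hnn v u) ⟨_, h0, ?_⟩
    refine Finset.sum_pos' (fun u _ => hnn _ u) ⟨_, h0, ?_⟩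
    refine Finset.prod_pos fun j _ => ?_
    unfold al
    norm_num
  have hip : ∀ a b : ℕ, ip (pr D a) (pr D b) = al a b / D ^ 3 := fun a b => (h1 D hD a b).1
  have him : ∀ a : ℕ, im (pr D a) = mm a / D ^ 2 := fun a => (h1 D hD a a).2
  have hip0 : ∀ a b : Fin (q0 + 1), 0 ≤ ip (pr D a) (pr D b) := by
    intro a b
    rw [hip]
    exact div_nonneg (hal _ _) (by positivity)
  have him0 : ∀ a : Fin (q0 + 1), 0 < im (pr D a) := by
    intro a
    rw [him]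
    exact div_pos (hmm _) (by positivity)
  have hsumE : ∑ a : Fin (q0 + 1), ∑ b : Fin (q0 + 1), ip (pr D a) (pr D b) = S / D ^ 3 := by
    rw [hS, Finset.sum_div]
    refine Finset.sum_congr rfl fun a _ => ?_
    rw [Finset.sum_div]
    exact Finset.sum_congr rfl fun b _ => hip _ _
  have hsumA : ∑ a : Fin (q0 + 1), im (pr D a) = M / D ^ 2 := by
    rw [hMd, Finset.sum_div]
    exact Finset.sum_congr rfl fun a _ => him _
  obtain ⟨hU1, hU2⟩ := h4 (m * N) (q0 + 1) (fun a b => ip (pr D a) (pr D b))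
    (fun a => im (pr D a)) A hip0 (fun a => (him0 a).le)
  rw [hsumE, hsumA] at hU1
  rw [hsumE, hsumA] at hU2
  have hkey : (2 / (N : ℝ)) * (S / D ^ 3) = (M / D ^ 2) ^ 2 := by
    have hN0 : (N : ℝ) ≠ 0 := by positivity
    rw [div_pow, div_mul_div_comm, div_eq_div_iff (by positivity) (by positivity)]
    have e3 : D * (2 * S) * D ^ 3 = N * M ^ 2 * D ^ 3 := by rw [hDS]
    linear_combination e3
  have hJ0 : ∀ l : Fin (m * N), 2 / (N : ℝ) * (S / D ^ 3) ^ (m * N) =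
      (M / D ^ 2) ^ 2 * (S / D ^ 3) ^ (m * N - 1) := by
    intro l
    rw [← hkey]
    conv_lhs => rw [show m * N = (m * N - 1) + 1 by omega, pow_succ]
    ring
  refine ⟨N, q0 + 1, fun a => pr D a, fun a => 2 ^ ((a : ℕ) + 1) / D, A, 2 / N,
    (S / D ^ 3) ^ (m * N), hN1, ⟨⟨hK1, fun a s => TnC_be hD a s, fun a => ?_, fun v hv => ?_, ?_⟩,
    hhalf, hip0, him0, by positivity, by positivity, ?_, fun l => ⟨?_, ?_⟩, fun l j hlj => ?_,
    ?_, ?_⟩⟩
  · rw [div_le_one hD]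
    linarith [hpow a]
  · linarith [hhalf v hv]
  · rw [TnC_Iq h1 hD]
    positivity
  · rw [TnC_Iq h1 hD, div_pow]
    exact div_le_div_of_nonneg_right hA (by positivity)
  · rw [hJ0 l, TnC_Jq h1 hD]
    have e4 : (M / D ^ 2) ^ 2 * (S / D ^ 3) ^ (m * N - 1) / 2 =
        M ^ 2 * S ^ (m * N - 1) / 2 / (D ^ 4 * (D ^ 3) ^ (m * N - 1)) := by
      rw [div_pow, div_pow]
      field_simp
    rw [e4]
    exact div_le_div_of_nonneg_right (hB l) (by positivity)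
  · rw [hJ0 l]
    exact hU1 l
  · have hK2 : 2 ≤ m * N := by
      have := l.isLt
      have := j.isLt
      have : (l : ℕ) ≠ j := fun h => hlj (Fin.ext h)
      omega
    have e5 : (2 / (N : ℝ)) ^ 2 * (S / D ^ 3) ^ (m * N) =
        (M / D ^ 2) ^ 4 * (S / D ^ 3) ^ (m * N - 2) := by
      rw [show (M / D ^ 2) ^ 4 = ((M / D ^ 2) ^ 2) ^ 2 by ring, ← hkey]
      conv_lhs => rw [show m * N = (m * N - 2) + 2 by omega, pow_add]
      ring
    rw [e5]
    exact hU2 l j hlj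
  · have : (m : ℝ) * N * (2 / N) = 2 * m := by
      field_simp
    rw [this]
    linarith
  · have : (m : ℝ) * N * (2 / N) = 2 * m := by
      field_simp
    rw [this]
    linarith

end Pool.Agent.Lib.BE
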