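import Pool.Agent.Lib.BE.SpecB

/-!
PROJECT BE, module TuC: upper bounds for the tensor sums (the product formula `PrFStmt` is proved here, so there is no
hypothesis).
-/

set_option autoImplicit false

namespace Pool.Agent.Lib.BE

open Finset

private theorem TuC_prod2 {K r : ℕ} (A : Fin K → Fin r → Fin r → ℝ) :
    ∑ v : Fin K → Fin r, ∑ u : Fin K → Fin r, ∏ j, A j (v j) (u j) =
      ∏ j, ∑ i, ∑ i', A j i i' := by
  rw [Finset.prod_univ_sum, Fintype.piFinset_univ]
  apply Finset.sum_congr rfl
  intro v _
  rw [Finset.prod_univ_sum, Fintype.piFinset_univ]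

private theorem TuC_full {K r : ℕ} (F : Fin K → Fin r → Fin r → ℝ) (hF : ∀ i a b, 0 ≤ F i a b)
    (𝒜 : Finset (Fin K → Fin r)) :
    ∑ v ∈ 𝒜, ∑ u ∈ 𝒜, ∏ j, F j (v j) (u j) ≤ ∏ j, ∑ a, ∑ b, F j a b := by
  rw [← TuC_prod2]
  have h0 : ∀ v u : Fin K → Fin r, 0 ≤ ∏ j, F j (v j) (u j) :=
    fun v u => Finset.prod_nonneg fun j _ => hF _ _ _
  calc ∑ v ∈ 𝒜, ∑ u ∈ 𝒜, ∏ j, F j (v j) (u j) ≤ ∑ v ∈ 𝒜, ∑ u, ∏ j, F j (v j) (u j) :=
        Finset.sum_le_sum fun v _ =>
          Finset.sum_le_sum_of_subset_of_nonneg (Finset.subset_univ _) fun u _ _ => h0 v u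
    _ ≤ _ := Finset.sum_le_sum_of_subset_of_nonneg (Finset.subset_univ _) fun v _ _ =>
        Finset.sum_nonneg fun u _ => h0 v u

private theorem TuC_sq {r : ℕ} (A : Fin r → ℝ) : ∑ a, ∑ b, A a * A b = (∑ a, A a) ^ 2 := by
  rw [sq, Finset.sum_mul_sum]

theorem tTuC : TuCStmt := by
  classical
  intro K r e A 𝒜 he hA
  constructor
  · intro l
    have h1 := TuC_full (fun i : Fin K => if i = l then (fun a b => A a * A b) else e) (by
      intro i a b
      by_cases h : i = l
      · simp only [h, if_true]
        exact mul_nonneg (hA _) (hA _)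
      · simp only [h, if_false]
        exact he _ _) 𝒜
    have h2 : ∀ v u : Fin K → Fin r,
        ∏ j, (if j = l then (fun a b => A a * A b) else e) (v j) (u j) =
          A (v l) * A (u l) * ∏ j ∈ univ.erase l, e (v j) (u j) := by
      intro v u
      rw [← Finset.mul_prod_erase univ _ (Finset.mem_univ l)]
      congr 1
      · simp
      · refine Finset.prod_congr rfl fun j hj => ?_
        rw [if_neg (Finset.ne_of_mem_erase hj)]
    have h3 : ∏ j : Fin K, ∑ a, ∑ b, (if j = l then (fun a b => A a * A b) else e) a b =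
        (∑ a, A a) ^ 2 * (∑ a, ∑ b, e a b) ^ (K - 1) := by
      rw [← Finset.mul_prod_erase univ _ (Finset.mem_univ l)]
      congr 1
      · simp only [if_true]
        exact TuC_sq A
      · rw [Finset.prod_congr rfl fun j hj => by rw [if_neg (Finset.ne_of_mem_erase hj)],
          Finset.prod_const, Finset.card_erase_of_mem (Finset.mem_univ l), Finset.card_univ,
          Fintype.card_fin]
    rw [h3] at h1
    refine le_trans (le_of_eq ?_) h1
    refine Finset.sum_congr rfl fun v _ => Finset.sum_congr rfl fun u _ => ?_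
    exact (h2 v u).symm
  · intro l j hlj
    have hm : j ∈ univ.erase l := Finset.mem_erase.mpr ⟨hlj.symm, Finset.mem_univ _⟩
    have h1 := TuC_full (fun i : Fin K => if i = l ∨ i = j then (fun a b => A a * A b) else e) (by
      intro i a b
      by_cases h : i = l ∨ i = j
      · simp only [h, if_true]
        exact mul_nonneg (hA _) (hA _)
      · simp only [h, if_false]
        exact he _ _) 𝒜
    have hne : ∀ i ∈ (univ.erase l).erase j, ¬(i = l ∨ i = j) := by
      intro i hi h
      rcases h with h | h
      · exact Finset.ne_of_mem_erase (Finset.mem_of_mem_erase hi) h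
      · exact Finset.ne_of_mem_erase hi h
    have h2 : ∀ v u : Fin K → Fin r,
        ∏ i, (if i = l ∨ i = j then (fun a b => A a * A b) else e) (v i) (u i) =
          A (v l) * A (u l) * (A (v j) * A (u j)) *
            ∏ i ∈ (univ.erase l).erase j, e (v i) (u i) := by
      intro v u
      rw [← Finset.mul_prod_erase univ _ (Finset.mem_univ l), ← Finset.mul_prod_erase _ _ hm,
        ← mul_assoc]
      congr 1
      · simp
      · refine Finset.prod_congr rfl fun i hi => ?_
        rw [if_neg (hne i hi)]
    have h3 : ∏ i : Fin K, ∑ a, ∑ b, (if i = l ∨ i = j then (fun a b => A a * A b) else e) a b =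
        (∑ a, A a) ^ 4 * (∑ a, ∑ b, e a b) ^ (K - 2) := by
      rw [← Finset.mul_prod_erase univ _ (Finset.mem_univ l), ← Finset.mul_prod_erase _ _ hm,
        ← mul_assoc]
      congr 1
      · simp only [true_or, or_true, if_true]
        rw [TuC_sq A]
        ring
      · rw [Finset.prod_congr rfl fun i hi => by rw [if_neg (hne i hi)],
          Finset.prod_const, Finset.card_erase_of_mem hm,
          Finset.card_erase_of_mem (Finset.mem_univ l), Finset.card_univ, Fintype.card_fin]
        rfl
    rw [h3] at h1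
    refine le_trans (le_of_eq ?_) h1
    refine Finset.sum_congr rfl fun v _ => Finset.sum_congr rfl fun u _ => ?_
    exact (h2 v u).symm

end Pool.Agent.Lib.BE
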