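import Pool.Agent.Lib.BE.SpecB

/-!
PROJECT BE (MP_9f2731_nt), module UpC (helper63): upper bound for the number of primes of a form.
-/

set_option autoImplicit false

namespace Pool.Agent.Lib.BE

open Finset
open Pool.Agent.Lib.MP_9f2731_nt.GP
open Pool.Agent.Lib.MP_9f2731_nt.GP.Sv
open Pool.Agent.Lib.MP_9f2731_nt.QL
open Pool.Agent.Lib.MP_9f2731_nt.QL.Sw
open Pool.Agent.Lib.MP_9f2731_nt.CG
open Pool.Agent.Lib.MP_9f2731_nt.CG.Ma
open Pool.Agent.Lib.MP_9f2731_nt.CG.Mf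

/-- the parameters are large -/
private theorem UpC_large : ∃ X0 : ℝ, ∀ X : ℕ, X0 ≤ X →
    1 ≤ Real.log (RR X) ∧ 2 ≤ RR X ∧ (X : ℝ) ^ ((3 : ℝ) / 5) ≤ X / 10 := by
  have t2 : Filter.Tendsto (fun X : ℕ => RR X) Filter.atTop Filter.atTop :=
    (tendsto_rpow_atTop (by norm_num : (0 : ℝ) < 1 / 5)).comp tendsto_natCast_atTop_atTop
  have t3 : Filter.Tendsto (fun X : ℕ => Real.log (RR X)) Filter.atTop Filter.atTop :=
    Real.tendsto_log_atTop.comp t2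
  have t4 : Filter.Tendsto (fun X : ℕ => (X : ℝ) ^ ((2 : ℝ) / 5)) Filter.atTop Filter.atTop :=
    (tendsto_rpow_atTop (by norm_num : (0 : ℝ) < 2 / 5)).comp tendsto_natCast_atTop_atTop
  obtain ⟨N0, hN0⟩ := Filter.eventually_atTop.1 (((t3.eventually_ge_atTop 1).and
    (t2.eventually_ge_atTop 2)).and (t4.eventually_ge_atTop 10))
  refine ⟨max N0 1, fun X hX => ?_⟩
  obtain ⟨⟨h1, h2⟩, h3⟩ := hN0 X (Nat.cast_le.1 ((le_max_left _ _).trans hX))
  refine ⟨h1, h2, ?_⟩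
  have hX0 : (0 : ℝ) < X := lt_of_lt_of_le one_pos ((le_max_right _ _).trans hX)
  have e : (X : ℝ) ^ ((3 : ℝ) / 5) * (X : ℝ) ^ ((2 : ℝ) / 5) = (X : ℝ) := by
    rw [← Real.rpow_add hX0]
    norm_num
  have h4 : 0 ≤ (X : ℝ) ^ ((3 : ℝ) / 5) := Real.rpow_nonneg hX0.le _
  have h5 := mul_le_mul_of_nonneg_left h3 h4
  rw [e] at h5
  linarith

private theorem UpC_Iq (h4 : PsCStmt) :
    Iq (fun _ : Fin 1 => psi 1) (univ : Finset (Fin 1 → Fin 1)) = 8 / 3 := by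
  unfold Iq
  have h := (h4 1 1).2
  simp only [h]
  simp

private theorem UpC_be (s : Fin 3) : 0 ≤ (psi 1).be s ∧ (psi 1).be s ≤ 1 / 2 := by
  fin_cases s <;> norm_num [psi]

private theorem UpC_vda (h4 : PsCStmt) :
    Vda (fun _ : Fin 1 => psi 1) (fun _ : Fin 1 => (1 / 2 : ℝ)) (univ : Finset (Fin 1 → Fin 1)) where
  hK := le_refl 1
  be := fun _ s => UpC_be s
  one := fun _ => by norm_num
  simp := fun v _ => by
    rw [Fin.sum_univ_one]
    norm_num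
  pos := by
    rw [UpC_Iq h4]
    norm_num

theorem tUpC (h1 : MaCStmt) (h2 : PfBStmt) (h3 : AfPStmt) (h4 : PsCStmt) : UpCStmt := by
  obtain ⟨XL, hL⟩ := UpC_large
  obtain ⟨XM, hM⟩ := h1 1 1 (fun _ => psi 1) (fun _ => (1 / 2 : ℝ)) univ (UpC_vda h4) (1 / 10) (by norm_num)
  refine ⟨max XM XL, ?_⟩
  intro X w V p0 K a c l hX hSt
  obtain ⟨hlog, hR2, hXX⟩ := hL X ((le_max_right _ _).trans hX)
  have hSt1 : StC X w V p0 (fun _ : Fin 1 => a l) (fun _ : Fin 1 => c l) :=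
    { hp := hSt.hp
      hpV := hSt.hpV
      hV := hSt.hV
      hw := hSt.hw
      hlog := hSt.hlog
      hs := hSt.hs
      ha := fun _ => hSt.ha l
      hd := fun j k hjk => absurd (Subsingleton.elim j k) hjk
      hVa := fun _ => hSt.hVa l
      ha1 := fun _ => hSt.ha1 l }
  have hM1 := hM X w V p0 _ _ ((le_max_left _ _).trans hX) hSt1
  rw [UpC_Iq h4, pow_one] at hM1
  have hPok : Pok (psi 1) := fun s => ⟨(UpC_be s).1, (UpC_be s).2.trans (by norm_num)⟩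
  -- the weight at the primes
  have hWW : ∀ b ∈ BpC X (a l) (c l), WWC (V * p0) X (fun _ : Fin 1 => psi 1) (univ : Finset (Fin 1 → Fin 1))
      (fun _ : Fin 1 => a l) (fun _ : Fin 1 => c l) b = Real.log (RR X) ^ 2 := by
    intro b hb
    obtain ⟨-, hb1, hb2⟩ := mem_filter.1 hb
    have hge : (b : ℝ) ≤ ((a l * b + c l : ℕ) : ℝ) := by
      have h5 : 1 * b ≤ a l * b := Nat.mul_le_mul_right b (hSt.ha1 l)
      have h6 : b ≤ a l * b + c l := by omega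
      exact_mod_cast h6
    have hAF : AF (V * p0) (RR X) (pfn (psi 1) (RR X)) (a l * b + c l) = Real.log (RR X) ^ 2 := by
      rw [(h3 (V * p0) (RR X) (pfn (psi 1) (RR X))).2.2 _ hb2 (lt_of_lt_of_le hb1 hge) (by linarith),
        (h2 (psi 1) (RR X) (by linarith) hPok).2.2, (h4 1 1).1, mul_one]
    unfold WWC
    simp only [hAF]
    simp
  have hsum : ((BpC X (a l) (c l)).card : ℝ) * Real.log (RR X) ^ 4 ≤
      ∑ b ∈ Icc 1 X, WWC (V * p0) X (fun _ : Fin 1 => psi 1) (univ : Finset (Fin 1 → Fin 1))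
        (fun _ : Fin 1 => a l) (fun _ : Fin 1 => c l) b ^ 2 := by
    have e1 : ∑ b ∈ BpC X (a l) (c l), WWC (V * p0) X (fun _ : Fin 1 => psi 1)
        (univ : Finset (Fin 1 → Fin 1)) (fun _ : Fin 1 => a l) (fun _ : Fin 1 => c l) b ^ 2 =
        ((BpC X (a l) (c l)).card : ℝ) * Real.log (RR X) ^ 4 := by
      rw [sum_congr rfl (fun b hb => by rw [hWW b hb]), sum_const, nsmul_eq_mul]
      ring
    rw [← e1]
    exact sum_le_sum_of_subset_of_nonneg (filter_subset _ _) (fun _ _ _ => sq_nonneg _)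
  have hX0 : (0 : ℝ) ≤ X := Nat.cast_nonneg X
  have hG1 : 1 ≤ GG (V * p0) X := by
    have hVp : 1 ≤ V * p0 := Nat.mul_pos hSt.hV hSt.hp.pos
    have hd0 : 0 < dlV (V * p0) := dlV_pos hVp
    have hd1 : dlV (V * p0) ≤ 1 := dlV_le_one _
    unfold GG
    rw [le_div_iff₀ hd0, one_mul]
    exact hd1.trans (one_le_pow₀ hlog)
  have hXG : (X : ℝ) ≤ X * GG (V * p0) X := le_mul_of_one_le_right hX0 hG1
  have hmain : ((BpC X (a l) (c l)).card : ℝ) * Real.log (RR X) ^ 4 ≤ 3 * (X * GG (V * p0) X) := by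
    have h5 := (abs_le.1 hM1).2
    have h6 : (X : ℝ) * (GG (V * p0) X * (8 / 3)) = 8 / 3 * (X * GG (V * p0) X) := by ring
    have h7 : (X : ℝ) * (GG (V * p0) X * (1 / 10)) = 1 / 10 * (X * GG (V * p0) X) := by ring
    rw [h6, h7] at h5
    linarith
  obtain ⟨k, rfl⟩ : ∃ k, K = k + 1 := ⟨K - 1, by have := l.pos; omega⟩
  rw [Nat.add_sub_cancel]
  have hGk : 0 ≤ GG (V * p0) X ^ k := pow_nonneg (zero_le_one.trans hG1) k
  calc ((BpC X (a l) (c l)).card : ℝ) * (Real.log (RR X) ^ 4 * GG (V * p0) X ^ k)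
      = ((BpC X (a l) (c l)).card : ℝ) * Real.log (RR X) ^ 4 * GG (V * p0) X ^ k := by ring
    _ ≤ 3 * (X * GG (V * p0) X) * GG (V * p0) X ^ k := mul_le_mul_of_nonneg_right hmain hGk
    _ = 3 * (X * GG (V * p0) X ^ (k + 1)) := by ring

end Pool.Agent.Lib.BE
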